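import Pool.Agent.U354.GE.Two

/-!
# Short periodic geodesics from two points with disjoint cut loci; no symmetry is assumed

`X` is a compact metric space in which any two points are joined by a minimal geodesic and minimal
geodesics between points at distance less than `r` are unique (every closed Riemannian manifold).
`Cut X p` is the closure of the set of points which are joined to `p` by more than one minimal
geodesic; in a closed Riemannian manifold this is the cut locus of `p`.

1. Let `f : K → X` be a map of a normal space which is not null-homotopic. If `K` is the union of two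
   open sets over which the points `f k` are joined to `p` by continuous families of paths of length
   at most `L`, then there is a periodic geodesic of length at most `2 L`.
2. Let `U`, `V` be open sets of points uniquely joined to `p` resp. `q`, at distance at most `R` from
   `p` resp. `q`. If a map `K → U ∪ V`, `K` any space, is not null-homotopic in `X`, then there is a
   periodic geodesic of length at most `2 R + dist p q`.
3. If a map `f : K → X` which is not null-homotopic avoids `Cut X p ∩ Cut X q` for two points `p`, `q`,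
   then there is a periodic geodesic of length at most `2 diam X + dist p q`.
4. If `X` is not contractible and two points `p`, `q` have disjoint cut loci, then there is a periodic
   geodesic of length at most `2 diam X + dist p q`, hence one of length at most `3 diam X`.
5. This is so if `X` is not contractible and the cut locus of some point has diameter less than `r`.
6. If `X` is not contractible and is the union of two open balls of radius `R ≤ r`, then there is a
   periodic geodesic of length at most `4 R`.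
-/

set_option autoImplicit false

open Set Topology Filter

noncomputable section

namespace Pool.Agent.Results.MP_3eff7f_gt.DisjointCutLoci

open Pool.Agent.Y489.GE

/-- the points which are joined to `p` by more than one minimal geodesic -/
def Many (X : Type) [MetricSpace X] (p : X) : Set X :=
  {y | ∃ z w : X, z ≠ w ∧ dist p z + dist z y = dist p y ∧ dist p w + dist w y = dist p y ∧
    dist p z = dist p w}

/-- the cut locus of `p` -/
def Cut (X : Type) [MetricSpace X] (p : X) : Set X := closure (Many X p)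

variable {X : Type} [MetricSpace X]

/-- the minimal geodesics from `p` to the points of a set which does not meet `Many X p` depend
continuously on the point -/
theorem exists_geod [CompactSpace X] (hX : GeodSpace X) (p : X) (U : Set X)
    (hU : Disjoint U (Many X p)) {R : ℝ} (hR : ∀ y ∈ U, dist p y ≤ R) :
    ∃ Θ : X → ℝ → X, ContinuousOn Θ U ∧ ∀ y ∈ U, Θ y ∈ Pa p R ∧ Θ y R = y := by
  choose c hc0 hc1 hcd using fun y => hX p y
  set τ : X → ℝ → ℝ := fun y t => max 0 (min t (dist p y)) with hτ
  have hτ0 : ∀ y t, 0 ≤ τ y t := fun y t => le_max_left _ _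
  have hτ1 : ∀ y t, τ y t ≤ dist p y := fun y t => max_le dist_nonneg (min_le_right _ _)
  have hτI : ∀ y t, τ y t / dist p y ∈ Icc (0 : ℝ) 1 := fun y t =>
    ⟨div_nonneg (hτ0 y t) dist_nonneg, div_le_one_of_le₀ (hτ1 y t) dist_nonneg⟩
  have hmul : ∀ y t, τ y t / dist p y * dist p y = τ y t := by
    intro y t
    rcases eq_or_ne (dist p y) 0 with h | h
    · have h1 := hτ1 y t
      have h2 := hτ0 y t
      rw [h] at h1
      rw [h, mul_zero]
      linarith
    · exact div_mul_cancel₀ _ h
  set Θ : X → ℝ → X := fun y t => c y (τ y t / dist p y) with hΘ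
  have hl : ∀ y t, dist p (Θ y t) = τ y t := by
    intro y t
    have h1 := hcd y 0 ⟨le_rfl, zero_le_one⟩ _ (hτI y t)
    rw [hc0, zero_sub, abs_neg, abs_of_nonneg (hτI y t).1, hmul] at h1
    exact h1
  have hrt : ∀ y t, dist (Θ y t) y = dist p y - τ y t := by
    intro y t
    have h1 := hcd y _ (hτI y t) 1 ⟨zero_le_one, le_rfl⟩
    rw [hc1, abs_sub_comm, abs_of_nonneg (by linarith [(hτI y t).2]), sub_mul, one_mul,
      hmul] at h1
    exact h1
  have hτc : ∀ t, Continuous fun y => τ y t := fun t =>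
    continuous_const.max (continuous_const.min (continuous_const.dist continuous_id))
  refine ⟨Θ, ?_, ?_⟩
  · rw [continuousOn_pi]
    intro t y hy
    show Tendsto (fun y => Θ y t) (𝓝[U] y) (𝓝 (Θ y t))
    rw [tendsto_iff_ultrafilter]
    intro g hg
    have hg1 : (g : Filter X) ≤ 𝓝 y := hg.trans nhdsWithin_le_nhds
    obtain ⟨w, -, hw⟩ := (isCompact_univ : IsCompact (univ : Set X)).ultrafilter_le_nhds
      (g.map (fun y => Θ y t)) (by simp)
    have hw' : Tendsto (fun y => Θ y t) (g : Filter X) (𝓝 w) := hw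
    have hx : Tendsto (fun y : X => y) (g : Filter X) (𝓝 y) := hg1
    have hτt : Tendsto (fun y => τ y t) (g : Filter X) (𝓝 (τ y t)) :=
      ((hτc t).tendsto y).mono_left hg1
    have e1 : dist p w = τ y t := by
      refine tendsto_nhds_unique (tendsto_const_nhds.dist hw') (hτt.congr fun z => ?_)
      exact (hl z t).symm
    have e2 : dist w y = dist p y - τ y t := by
      refine tendsto_nhds_unique (hw'.dist hx)
        (((tendsto_const_nhds.dist hx).sub hτt).congr fun z => ?_)
      exact (hrt z t).symm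
    have e3 : Θ y t = w := by
      by_contra hne
      refine Set.disjoint_left.1 hU hy ⟨Θ y t, w, hne, ?_, ?_, ?_⟩
      · rw [hl, hrt]; ring
      · rw [e1, e2]; ring
      · rw [hl, e1]
    rw [e3]
    exact hw'
  · intro y hy
    have hend : ∀ t, R ≤ t → Θ y t = y := by
      intro t ht
      have h1 := hrt y t
      have h2 : τ y t = dist p y := by
        have h3 : dist p y ≤ t := (hR y hy).trans ht
        simp only [hτ]
        rw [min_eq_right h3, max_eq_right dist_nonneg]
      rw [h2, sub_self] at h1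
      exact dist_eq_zero.1 h1
    refine ⟨⟨fun s t => ?_, fun t ht => ?_, fun t ht => ?_⟩, hend R le_rfl⟩
    · have h1 := hcd y _ (hτI y s) _ (hτI y t)
      have h2 : |τ y s / dist p y - τ y t / dist p y| * dist p y = |τ y s - τ y t| := by
        rw [← abs_of_nonneg (dist_nonneg (x := p) (y := y)), ← abs_mul, sub_mul,
          abs_of_nonneg (dist_nonneg (x := p) (y := y)), hmul, hmul]
      rw [h2] at h1
      refine h1.le.trans ?_
      refine (abs_max_sub_max_le_max _ _ _ _).trans ?_
      rw [sub_self, abs_zero]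
      refine max_le (abs_nonneg _) ?_
      refine (abs_min_sub_min_le_max _ _ _ _).trans ?_
      rw [sub_self, abs_zero]
      exact max_le le_rfl (abs_nonneg _)
    · have h1 := hl y t
      have h2 : τ y t = 0 := max_eq_left ((min_le_left _ _).trans ht)
      rw [h2] at h1
      exact (dist_eq_zero.1 h1).symm
    · rw [hend t ht, hend R le_rfl]

/-- a minimal geodesic, parametrised by arc length and then constant -/
theorem exists_arc (hX : GeodSpace X) (z p : X) : ∃ β ∈ Pa z (dist z p), β (dist z p) = p := by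
  obtain ⟨c, h0, h1, h2⟩ := hX z p
  set d := dist z p with hd
  have hd0 : 0 ≤ d := dist_nonneg
  rcases hd0.eq_or_lt with h | h
  · refine ⟨fun _ => z, ⟨fun s t => by rw [dist_self]; exact abs_nonneg _, fun _ _ => rfl,
      fun _ _ => rfl⟩, ?_⟩
    exact dist_eq_zero.1 (hd ▸ h.symm)
  have hcl : ∀ s : ℝ, max 0 (min (s / d) 1) ∈ Icc (0 : ℝ) 1 := fun s =>
    ⟨le_max_left _ _, max_le zero_le_one (min_le_right _ _)⟩
  refine ⟨fun s => c (max 0 (min (s / d) 1)), ⟨?_, ?_, ?_⟩, ?_⟩
  · intro s t
    rw [h2 _ (hcl s) _ (hcl t)]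
    have h3 : |max 0 (min (s / d) 1) - max 0 (min (t / d) 1)| ≤ |s / d - t / d| := by
      refine (abs_max_sub_max_le_max _ _ _ _).trans ?_
      rw [sub_self, abs_zero]
      refine max_le (abs_nonneg _) ?_
      refine (abs_min_sub_min_le_max _ _ _ _).trans ?_
      rw [sub_self, abs_zero]
      exact max_le le_rfl (abs_nonneg _)
    calc |max 0 (min (s / d) 1) - max 0 (min (t / d) 1)| * d
        ≤ |s / d - t / d| * d := mul_le_mul_of_nonneg_right h3 hd0
      _ = |s - t| := by
        rw [← sub_div, abs_div, abs_of_pos h, div_mul_cancel₀ _ h.ne']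
  · intro t ht
    have : max 0 (min (t / d) 1) = 0 := by
      refine max_eq_left ((min_le_left _ _).trans ?_)
      exact div_nonpos_of_nonpos_of_nonneg ht hd0
    simp only [this, h0]
  · intro t ht
    have h3 : 1 ≤ t / d := by rwa [le_div_iff₀ h, one_mul]
    simp only [min_eq_right h3, div_self h.ne', min_self]
  · simp only [div_self h.ne', min_self, max_eq_right zero_le_one, h1]

/-- paths through `p` -/
theorem through {z p : X} {d R : ℝ} {β : ℝ → X} (hd : 0 ≤ d) (hR : 0 ≤ R) (hβ : β ∈ Pa z d)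
    (hβ1 : β d = p) {Θ : X → ℝ → X} {U : Set X} (hΘ : ContinuousOn Θ U)
    (hΘ1 : ∀ y ∈ U, Θ y ∈ Pa p R ∧ Θ y R = y) :
    ∃ ρ : X → ℝ → X, ContinuousOn ρ U ∧ ∀ y ∈ U, ρ y ∈ Pa z (R + d) ∧ ρ y (R + d) = y := by
  refine ⟨fun y t => if t ≤ d then β t else Θ y (t - d), ?_, ?_⟩
  · rw [continuousOn_pi] at hΘ ⊢
    intro t
    by_cases ht : t ≤ d
    · simp only [if_pos ht]
      exact continuousOn_const
    · simp only [if_neg ht]
      exact hΘ (t - d)
  · intro y hy
    obtain ⟨⟨h1, h2, h3⟩, h4⟩ := hΘ1 y hy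
    have hend : ∀ t, R + d ≤ t → (if t ≤ d then β t else Θ y (t - d)) = y := by
      intro t ht
      split_ifs with h
      · have hR0 : R = 0 := by linarith
        have ht' : t = d := by linarith
        rw [ht', hβ1, ← h4, hR0, h2 0 le_rfl]
      · rw [h3 (t - d) (by linarith), h4]
    refine ⟨⟨?_, ?_, ?_⟩, hend _ le_rfl⟩
    · refine Pool.Agent.Y467.GE.lip_join (F := β) (G := fun t => Θ y (t - d)) hβ.1 ?_ ?_
      · intro s t
        refine (h1 _ _).trans (le_of_eq ?_)
        rw [sub_sub_sub_cancel_right]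
      · show β d = Θ y (d - d)
        rw [sub_self, hβ1, h2 0 le_rfl]
    · intro t ht
      show (if t ≤ d then β t else Θ y (t - d)) = z
      rw [if_pos (ht.trans hd)]
      exact hβ.2.1 t ht
    · intro t ht
      show (if t ≤ d then β t else Θ y (t - d)) = _
      rw [hend t ht]
      exact (hend _ le_rfl).symm

/-- the statements about null-homotopic maps -/
theorem core (X : Type) [MetricSpace X] [CompactSpace X] (r : ℝ) (hr : 0 < r)
    (hX : GeodSpace X) (hU : UniqGeod X r) :
    (∀ (p : X) (L : ℝ), 0 < L → ¬ ClosedGeod X (2 * L) →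
      ∀ (K : Type) [TopologicalSpace K] [NormalSpace K] (f : C(K, X)) (V W : Set K),
      IsOpen V → IsOpen W → V ∪ W = univ → ∀ ρ τ : K → ℝ → X, ContinuousOn ρ V →
      ContinuousOn τ W → (∀ k ∈ V, ρ k ∈ Pa p L ∧ ρ k L = f k) →
      (∀ k ∈ W, τ k ∈ Pa p L ∧ τ k L = f k) → f.Homotopic (ContinuousMap.const K p)) ∧
    (∀ (p q : X) (R : ℝ) (U V : Set X), 0 < R → IsOpen U → IsOpen V →
      (∀ y ∈ U, y ∉ Many X p ∧ dist p y ≤ R) → (∀ y ∈ V, y ∉ Many X q ∧ dist q y ≤ R) →
      ¬ ClosedGeod X (2 * R + dist p q) →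
      (⟨fun y => y.1, continuous_subtype_val⟩ : C(↥(U ∪ V), X)).Nullhomotopic) ∧
    (∀ p q : X, ¬ ClosedGeod X (2 * Metric.diam (univ : Set X) + dist p q) →
      (⟨fun y => y.1, continuous_subtype_val⟩ : C(↥((Cut X p ∩ Cut X q)ᶜ), X)).Nullhomotopic) ∧
    (¬ ContractibleSpace X → ∀ p q : X, Disjoint (Cut X p) (Cut X q) →
      ClosedGeod X (2 * Metric.diam (univ : Set X) + dist p q) ∧
      ClosedGeod X (3 * Metric.diam (univ : Set X))) ∧
    (¬ ContractibleSpace X → ∀ p : X, (∀ x ∈ Cut X p, ∀ y ∈ Cut X p, dist x y < r) →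
      ClosedGeod X (3 * Metric.diam (univ : Set X))) := by
  have hbd : Bornology.IsBounded (univ : Set X) := isCompact_univ.isBounded
  have hdD : ∀ x y : X, dist x y ≤ Metric.diam (univ : Set X) := fun x y =>
    Metric.dist_le_diam_of_mem hbd (mem_univ x) (mem_univ y)
  -- (1)
  have h1 : ∀ (p : X) (L : ℝ), 0 < L → ¬ ClosedGeod X (2 * L) →
      ∀ (K : Type) [TopologicalSpace K] [NormalSpace K] (f : C(K, X)) (V W : Set K),
      IsOpen V → IsOpen W → V ∪ W = univ → ∀ ρ τ : K → ℝ → X, ContinuousOn ρ V →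
      ContinuousOn τ W → (∀ k ∈ V, ρ k ∈ Pa p L ∧ ρ k L = f k) →
      (∀ k ∈ W, τ k ∈ Pa p L ∧ τ k L = f k) → f.Homotopic (ContinuousMap.const K p) := by
    intro p L hL hno K _ _ f V W hV hW hVW ρ τ hρ hτ eρ eτ
    obtain ⟨H, hH, hH0, hH1⟩ := Pool.Agent.U354.GE.two_families hr hX hU hL hno p K f V W hV hW
      hVW ρ τ hρ hτ eρ eτ
    refine ContinuousMap.Homotopic.symm ⟨⟨⟨fun z => H z.2 z.1.1, ?_⟩, ?_, ?_⟩⟩
    · exact hH.comp (continuous_snd.prodMk (continuous_subtype_val.comp continuous_fst))
    · intro k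
      exact hH0 k
    · intro k
      exact hH1 k
  -- (2)
  have h2 : ∀ (p q : X) (R : ℝ) (U V : Set X), 0 < R → IsOpen U → IsOpen V →
      (∀ y ∈ U, y ∉ Many X p ∧ dist p y ≤ R) → (∀ y ∈ V, y ∉ Many X q ∧ dist q y ≤ R) →
      ¬ ClosedGeod X (2 * R + dist p q) →
      (⟨fun y => y.1, continuous_subtype_val⟩ : C(↥(U ∪ V), X)).Nullhomotopic := by
    intro p q R U V hR hUo hVo hUp hVq hno
    -- the middle point
    obtain ⟨c, hc0, hc1, hcd⟩ := hX p q
    set z := c (1 / 2) with hz
    have hzp : dist z p = dist p q / 2 := by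
      have := hcd (1 / 2) ⟨by norm_num, by norm_num⟩ 0 ⟨le_rfl, zero_le_one⟩
      rw [hc0, sub_zero, abs_of_pos (by norm_num)] at this
      rw [hz, this]
      ring
    have hzq : dist z q = dist p q / 2 := by
      have := hcd (1 / 2) ⟨by norm_num, by norm_num⟩ 1 ⟨zero_le_one, le_rfl⟩
      rw [hc1] at this
      rw [hz, this]
      norm_num
      ring
    have hd0 : 0 ≤ dist p q / 2 := by positivity
    obtain ⟨β, hβ, hβ1⟩ := exists_arc hX z p
    obtain ⟨γ, hγ, hγ1⟩ := exists_arc hX z q
    rw [hzp] at hβ hβ1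
    rw [hzq] at hγ hγ1
    obtain ⟨Θ, hΘ, hΘ1⟩ := exists_geod hX p U
      (Set.disjoint_left.2 fun y hy hy' => (hUp y hy).1 hy') (fun y hy => (hUp y hy).2)
    obtain ⟨Φ, hΦ, hΦ1⟩ := exists_geod hX q V
      (Set.disjoint_left.2 fun y hy hy' => (hVq y hy).1 hy') (fun y hy => (hVq y hy).2)
    obtain ⟨ρ, hρ, hρ1⟩ := through hd0 hR.le hβ hβ1 hΘ hΘ1
    obtain ⟨τ, hτ, hτ1⟩ := through hd0 hR.le hγ hγ1 hΦ hΦ1
    refine ⟨z, ?_⟩
    refine h1 z (R + dist p q / 2) (by positivity) ?_ ↥(U ∪ V) _ {y | y.1 ∈ U} {y | y.1 ∈ V}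
      (hUo.preimage continuous_subtype_val) (hVo.preimage continuous_subtype_val) ?_
      (fun y => ρ y.1) (fun y => τ y.1) ?_ ?_ ?_ ?_
    · rw [show 2 * (R + dist p q / 2) = 2 * R + dist p q by ring]
      exact hno
    · ext y
      exact iff_of_true y.2 (mem_univ y)
    · exact hρ.comp continuous_subtype_val.continuousOn fun y hy => hy
    · exact hτ.comp continuous_subtype_val.continuousOn fun y hy => hy
    · intro y hy
      exact hρ1 y.1 hy
    · intro y hy
      exact hτ1 y.1 hy
  -- (3)
  have h3 : ∀ p q : X, ¬ ClosedGeod X (2 * Metric.diam (univ : Set X) + dist p q) →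
      (⟨fun y => y.1, continuous_subtype_val⟩ :
        C(↥((Cut X p ∩ Cut X q)ᶜ), X)).Nullhomotopic := by
    intro p q hno
    by_cases hs : Subsingleton X
    · refine ⟨p, ?_⟩
      have : (⟨fun y => y.1, continuous_subtype_val⟩ : C(↥((Cut X p ∩ Cut X q)ᶜ), X)) =
          ContinuousMap.const _ p := by
        ext y
        exact Subsingleton.elim _ _
      rw [this]
    have hnt : Nontrivial X := not_subsingleton_iff_nontrivial.1 hs
    obtain ⟨x₀, y₀, hxy⟩ := exists_pair_ne X
    have hD : 0 < Metric.diam (univ : Set X) := lt_of_lt_of_le (dist_pos.2 hxy) (hdD x₀ y₀)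
    have h4 := h2 p q _ (Cut X p)ᶜ (Cut X q)ᶜ hD isClosed_closure.isOpen_compl
      isClosed_closure.isOpen_compl (fun y hy => ⟨fun h => hy (subset_closure h), hdD _ _⟩)
      (fun y hy => ⟨fun h => hy (subset_closure h), hdD _ _⟩) hno
    rw [Set.compl_inter]
    exact h4
  -- (4)
  have h4 : ¬ ContractibleSpace X → ∀ p q : X, Disjoint (Cut X p) (Cut X q) →
      ClosedGeod X (2 * Metric.diam (univ : Set X) + dist p q) ∧
      ClosedGeod X (3 * Metric.diam (univ : Set X)) := by
    intro hnc p q hdis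
    have key : ClosedGeod X (2 * Metric.diam (univ : Set X) + dist p q) := by
      by_contra hno
      apply hnc
      obtain ⟨z, hz⟩ := h3 p q hno
      have e : (Cut X p ∩ Cut X q)ᶜ = univ := by
        rw [Set.disjoint_iff_inter_eq_empty.1 hdis, Set.compl_empty]
      have hmem : ∀ x : X, x ∈ (Cut X p ∩ Cut X q)ᶜ := fun x => by rw [e]; exact mem_univ x
      have h5 := hz.comp (ContinuousMap.Homotopic.refl
        (⟨fun x => ⟨x, hmem x⟩, continuous_id.subtype_mk _⟩ :
          C(X, ↥((Cut X p ∩ Cut X q)ᶜ))))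
      rw [contractible_iff_id_nullhomotopic]
      exact ⟨z, h5⟩
    refine ⟨key, ?_⟩
    obtain ⟨γ, ℓ, a1, a2, a3, a4⟩ := key
    exact ⟨γ, ℓ, a1, by linarith [hdD p q], a3, a4⟩
  refine ⟨h1, h2, h3, h4, ?_⟩
  -- (5)
  intro hnc p hp
  rcases (Cut X p).eq_empty_or_nonempty with he | ⟨q, hq⟩
  · exact (h4 hnc p p (by rw [he]; exact Set.disjoint_empty _)).2
  · refine (h4 hnc p q ?_).2
    rw [Set.disjoint_left]
    intro x hx hxq
    have hball : Disjoint (Metric.ball q r) (Many X q) := by
      rw [Set.disjoint_left]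
      rintro y hy ⟨z, w, hne, e1, e2, e3⟩
      refine hne (hU q y z w ?_ e1 e2 e3)
      rw [dist_comm]
      exact hy
    have h6 := hball.closure_right Metric.isOpen_ball
    refine Set.disjoint_left.1 h6 ?_ hxq
    exact hp x hx q hq

/-- **Short periodic geodesics from two families of short paths, and from two points with disjoint
cut loci.** -/
theorem result (X : Type) [MetricSpace X] [CompactSpace X] (r : ℝ) (hr : 0 < r)
    (hX : GeodSpace X) (hU : UniqGeod X r) :
    (∀ (K : Type) [TopologicalSpace K] [NormalSpace K] (f : C(K, X)), ¬ f.Nullhomotopic →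
      ∀ (p : X) (L : ℝ) (V W : Set K) (ρ τ : K → ℝ → X), 0 < L → IsOpen V → IsOpen W →
      V ∪ W = univ → ContinuousOn ρ V → ContinuousOn τ W →
      (∀ k ∈ V, ρ k ∈ Pa p L ∧ ρ k L = f k) → (∀ k ∈ W, τ k ∈ Pa p L ∧ τ k L = f k) →
      ClosedGeod X (2 * L)) ∧
    (∀ (K : Type) [TopologicalSpace K] (f : C(K, X)), ¬ f.Nullhomotopic →
      ∀ (p q : X) (R : ℝ) (U V : Set X), 0 < R → IsOpen U → IsOpen V →
      (∀ y ∈ U, y ∉ Many X p ∧ dist p y ≤ R) → (∀ y ∈ V, y ∉ Many X q ∧ dist q y ≤ R) →
      (∀ k, f k ∈ U ∪ V) → ClosedGeod X (2 * R + dist p q)) ∧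
    (∀ (K : Type) [TopologicalSpace K] (f : C(K, X)), ¬ f.Nullhomotopic →
      ∀ p q : X, (∀ k, f k ∉ Cut X p ∩ Cut X q) →
      ClosedGeod X (2 * Metric.diam (univ : Set X) + dist p q)) ∧
    (¬ ContractibleSpace X → ∀ p q : X, Disjoint (Cut X p) (Cut X q) →
      ClosedGeod X (2 * Metric.diam (univ : Set X) + dist p q) ∧
      ClosedGeod X (3 * Metric.diam (univ : Set X))) ∧
    (¬ ContractibleSpace X → ∀ p : X, (∀ x ∈ Cut X p, ∀ y ∈ Cut X p, dist x y < r) →
      ClosedGeod X (3 * Metric.diam (univ : Set X))) ∧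
    (¬ ContractibleSpace X → ∀ (p q : X) (R : ℝ), 0 < R → R ≤ r →
      Metric.ball p R ∪ Metric.ball q R = univ → ClosedGeod X (4 * R)) := by
  obtain ⟨h1, h2, h3, h4, h5⟩ := core X r hr hX hU
  refine ⟨?_, ?_, ?_, h4, h5, ?_⟩
  · intro K _ _ f hf p L V W ρ τ hL hV hW hVW hρ hτ eρ eτ
    by_contra hno
    exact hf ⟨p, h1 p L hL hno K f V W hV hW hVW ρ τ hρ hτ eρ eτ⟩
  · intro K _ f hf p q R U V hR hUo hVo hUp hVq hk
    by_contra hno
    apply hf
    have h6 := (h2 p q R U V hR hUo hVo hUp hVq hno).comp_left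
      (⟨fun k => ⟨f k, hk k⟩, f.continuous.subtype_mk _⟩ : C(K, ↥(U ∪ V)))
    exact h6
  · intro K _ f hf p q hk
    by_contra hno
    apply hf
    have h6 := (h3 p q hno).comp_left
      (⟨fun k => ⟨f k, hk k⟩, f.continuous.subtype_mk _⟩ : C(K, ↥((Cut X p ∩ Cut X q)ᶜ)))
    exact h6
  · intro hnc p q R hR hRr hcov
    have hball : ∀ o y : X, y ∈ Metric.ball o R → y ∉ Many X o ∧ dist o y ≤ R := by
      intro o y hy
      have hy' : dist o y < R := by rw [dist_comm]; exact hy
      refine ⟨?_, hy'.le⟩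
      rintro ⟨z, w, hne, e1, e2, e3⟩
      exact hne (hU o y z w (hy'.trans_le hRr) e1 e2 e3)
    have hmem : ∀ x : X, x ∈ Metric.ball p R ∪ Metric.ball q R := fun x => by
      rw [hcov]; exact mem_univ x
    have hpq : dist p q ≤ 2 * R := by
      rcases le_or_gt (dist p q) R with h | h
      · linarith
      · obtain ⟨c, hc0, hc1, hcd⟩ := hX p q
        have hd : 0 < dist p q := hR.trans h
        have hs : R / dist p q ∈ Icc (0 : ℝ) 1 :=
          ⟨by positivity, (div_le_one hd).2 h.le⟩
        have e1 := hcd _ hs 0 ⟨le_rfl, zero_le_one⟩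
        have e2 := hcd _ hs 1 ⟨zero_le_one, le_rfl⟩
        rw [hc0, sub_zero, abs_of_nonneg hs.1, div_mul_cancel₀ _ hd.ne'] at e1
        rw [hc1, abs_sub_comm, abs_of_nonneg (by linarith [hs.2]), sub_mul, one_mul,
          div_mul_cancel₀ _ hd.ne'] at e2
        rcases hmem (c (R / dist p q)) with h7 | h7
        · rw [Metric.mem_ball, e1] at h7
          exact absurd h7 (lt_irrefl _)
        · rw [Metric.mem_ball, e2] at h7
          linarith
    have key : ClosedGeod X (2 * R + dist p q) := by
      by_contra hno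
      apply hnc
      have h6 := (h2 p q R _ _ hR Metric.isOpen_ball Metric.isOpen_ball (hball p) (hball q)
        hno).comp_left (⟨fun x => ⟨x, hmem x⟩, continuous_id.subtype_mk _⟩ :
          C(X, ↥(Metric.ball p R ∪ Metric.ball q R)))
      rw [contractible_iff_id_nullhomotopic]
      exact h6
    obtain ⟨γ, ℓ, a1, a2, a3, a4⟩ := key
    exact ⟨γ, ℓ, a1, by linarith, a3, a4⟩

end Pool.Agent.Results.MP_3eff7f_gt.DisjointCutLoci
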