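import Pool.Agent.U354.GE.Sym

/-!
# Short periodic geodesics from periodic maps and circle actions which need not be isometric

`X` is a compact metric space in which any two points are joined by a minimal geodesic and minimal
geodesics between points at distance less than `r` are unique (every closed Riemannian manifold).

Let `σ` be a continuous map of a space `K` with `σ ^ 2 ^ a = 1` and `f : K → X` a map which is not
homotopic to a map `g` with `g ∘ σ = g`.

1. If there is a continuous family of paths of length at most `L` from `f k` to `f (σ k)`, then `X`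
   has a periodic geodesic of length at most `2 ^ a * L`.
2. If `f k` and `f (σ k)` are joined by only one minimal geodesic and are at distance at most `D`, for
   all `k`, then `X` has a periodic geodesic of length at most `2 ^ a * D`.
3. If the circle `ℝ / ℓ ℤ` acts on `K`, `σ` is the action of `ℓ / 2 ^ a` and the curves
   `t ↦ f (t • k)` have speed at most one, then `X` has a periodic geodesic of length at most `ℓ`.

For `K = X` and `f = id` the hypothesis is that no map homotopic to the identity is constant on the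
orbits of `σ`; it holds for every closed manifold `X` when `σ` is not the identity (the map from `X` to
the orbit space of a power of `σ` of order `2` kills the fundamental class modulo `2`). So a closed
Riemannian manifold with a circle action, not necessarily isometric, has a periodic geodesic of length
at most `ℓ` if all orbits are parametrised with speed at most `ℓ`; and one of length at most
`4 diam` if it has a continuous map `σ` of order `4` for which `σ x` is not a cut point of `x`.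
-/

set_option autoImplicit false

open Set Topology Filter

noncomputable section

namespace Pool.Agent.Results.MP_3eff7f_gt.NonIsometricActions

open Pool.Agent.Y489.GE

/-- `x` and `y` are joined by only one minimal geodesic -/
def OneGeod {X : Type} [MetricSpace X] (x y : X) : Prop :=
  ∀ z w : X, dist x z + dist z y = dist x y → dist x w + dist w y = dist x y →
    dist x z = dist x w → z = w

/-- `f` is homotopic to a map which is constant on the orbits of `σ` -/
def Inv {K X : Type} [TopologicalSpace K] [TopologicalSpace X] (σ : C(K, K)) (f : C(K, X)) :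
    Prop :=
  ∃ g : C(K, X), f.Homotopic g ∧ ∀ k, g (σ k) = g k

variable {X : Type} [MetricSpace X]

/-- the unique minimal geodesics depend continuously on the end points -/
theorem exists_geod [CompactSpace X] (hX : GeodSpace X) {K : Type} [TopologicalSpace K]
    (f g : C(K, X)) (h1 : ∀ k, OneGeod (f k) (g k)) {D : ℝ} (hD : ∀ k, dist (f k) (g k) ≤ D) :
    ∃ c : K → ℝ → X, (∀ t, Continuous fun k => c k t) ∧
      (∀ k s t, dist (c k s) (c k t) ≤ |s - t|) ∧ (∀ k, c k 0 = f k) ∧ ∀ k, c k D = g k := by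
  choose m hm0 hm1 hmd using fun k => hX (f k) (g k)
  set d : K → ℝ := fun k => dist (f k) (g k) with hd
  have hdc : Continuous d := f.continuous.dist g.continuous
  have hd0 : ∀ k, 0 ≤ d k := fun k => dist_nonneg
  set τ : K → ℝ → ℝ := fun k t => max 0 (min t (d k)) with hτ
  have hτ0 : ∀ k t, 0 ≤ τ k t := fun k t => le_max_left _ _
  have hτ1 : ∀ k t, τ k t ≤ d k := fun k t => max_le (hd0 k) (min_le_right _ _)
  have hτI : ∀ k t, τ k t / d k ∈ Icc (0 : ℝ) 1 := fun k t =>
    ⟨div_nonneg (hτ0 k t) (hd0 k), div_le_one_of_le₀ (hτ1 k t) (hd0 k)⟩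
  have hmul : ∀ k t, τ k t / d k * d k = τ k t := by
    intro k t
    rcases eq_or_ne (d k) 0 with h | h
    · have e1 := hτ1 k t
      have e2 := hτ0 k t
      rw [h] at e1
      rw [h, mul_zero]
      linarith
    · exact div_mul_cancel₀ _ h
  set c : K → ℝ → X := fun k t => m k (τ k t / d k) with hc
  have hl : ∀ k t, dist (f k) (c k t) = τ k t := by
    intro k t
    have e1 := hmd k 0 ⟨le_rfl, zero_le_one⟩ _ (hτI k t)
    rw [hm0, zero_sub, abs_neg, abs_of_nonneg (hτI k t).1] at e1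
    exact e1.trans (hmul k t)
  have hrt : ∀ k t, dist (c k t) (g k) = d k - τ k t := by
    intro k t
    have e1 := hmd k _ (hτI k t) 1 ⟨zero_le_one, le_rfl⟩
    rw [hm1, abs_sub_comm, abs_of_nonneg (by linarith [(hτI k t).2])] at e1
    refine e1.trans ?_
    rw [sub_mul, one_mul]
    exact congrArg (d k - ·) (hmul k t)
  have hτc : ∀ t, Continuous fun k => τ k t := fun t =>
    continuous_const.max (continuous_const.min hdc)
  refine ⟨c, fun t => ?_, fun k s t => ?_, fun k => ?_, fun k => ?_⟩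
  · rw [continuous_iff_continuousAt]
    intro k
    show Tendsto (fun k => c k t) (𝓝 k) (𝓝 (c k t))
    rw [tendsto_iff_ultrafilter]
    intro F hF
    obtain ⟨w, -, hw⟩ := (isCompact_univ : IsCompact (univ : Set X)).ultrafilter_le_nhds
      (F.map (fun k => c k t)) (by simp)
    have hw' : Tendsto (fun k => c k t) (F : Filter K) (𝓝 w) := hw
    have hf : Tendsto (fun k => f k) (F : Filter K) (𝓝 (f k)) :=
      (f.continuous.tendsto k).mono_left hF
    have hg : Tendsto (fun k => g k) (F : Filter K) (𝓝 (g k)) :=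
      (g.continuous.tendsto k).mono_left hF
    have hdt : Tendsto d (F : Filter K) (𝓝 (d k)) := (hdc.tendsto k).mono_left hF
    have hτt : Tendsto (fun k => τ k t) (F : Filter K) (𝓝 (τ k t)) :=
      ((hτc t).tendsto k).mono_left hF
    have e1 : dist (f k) w = τ k t := by
      refine tendsto_nhds_unique (hf.dist hw') (hτt.congr fun z => ?_)
      exact (hl z t).symm
    have e2 : dist w (g k) = d k - τ k t := by
      refine tendsto_nhds_unique (hw'.dist hg) ((hdt.sub hτt).congr fun z => ?_)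
      exact (hrt z t).symm
    have e3 : c k t = w := by
      refine h1 k _ _ ?_ ?_ ?_
      · rw [hl, hrt]; simp only [hd]; ring
      · rw [e1, e2]; simp only [hd]; ring
      · rw [hl, e1]
    rw [e3]
    exact hw'
  · have e1 := hmd k _ (hτI k s) _ (hτI k t)
    have e2 : |τ k s / d k - τ k t / d k| * d k = |τ k s - τ k t| := by
      rw [← abs_of_nonneg (hd0 k), ← abs_mul, sub_mul, abs_of_nonneg (hd0 k), hmul, hmul]
    refine (e1.trans e2).le.trans ?_
    refine (abs_max_sub_max_le_max _ _ _ _).trans ?_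
    rw [sub_self, abs_zero]
    refine max_le (abs_nonneg _) ?_
    refine (abs_min_sub_min_le_max _ _ _ _).trans ?_
    rw [sub_self, abs_zero]
    exact max_le le_rfl (abs_nonneg _)
  · have e1 := hl k 0
    have e2 : τ k 0 = 0 := max_eq_left (min_le_left _ _)
    rw [e2] at e1
    exact (dist_eq_zero.1 e1).symm
  · have e1 := hrt k D
    have e2 : τ k D = d k := by
      simp only [hτ]
      rw [min_eq_right (hD k), max_eq_right (hd0 k)]
    rw [e2, sub_self] at e1
    exact dist_eq_zero.1 e1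

/-- families of paths -/
theorem tracks [CompactSpace X] {r : ℝ} (hr : 0 < r) (hX : GeodSpace X) (hU : UniqGeod X r)
    (a : ℕ) {L : ℝ} (hL : 0 < L) (hno : ¬ ClosedGeod X (2 ^ a * L)) {K : Type}
    [TopologicalSpace K] (σ : C(K, K)) (f : C(K, X)) (c : K → ℝ → X)
    (hσ : ∀ k, σ^[2 ^ a] k = k) (hc : ∀ t ∈ Icc (0 : ℝ) L, Continuous fun k => c k t)
    (hl : ∀ k, ∀ s ∈ Icc (0 : ℝ) L, ∀ t ∈ Icc (0 : ℝ) L, dist (c k s) (c k t) ≤ |s - t|)
    (h0 : ∀ k, c k 0 = f k) (h1 : ∀ k, c k L = f (σ k)) : Inv σ f := by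
  obtain ⟨b, hb⟩ := pow_unbounded_of_one_lt (L / (r / 2)) (one_lt_two : (1 : ℝ) < 2)
  have hr2 : 0 < r / 2 := by linarith
  have h2b : (0 : ℝ) < 2 ^ b := by positivity
  obtain ⟨δ, hδ⟩ : ∃ δ : ℝ, δ = L / 2 ^ b := ⟨_, rfl⟩
  have hδ0 : 0 < δ := by rw [hδ]; positivity
  have hδL : 2 ^ b * δ = L := by rw [hδ]; field_simp
  have hδr : δ ≤ r / 2 := by
    rw [div_lt_iff₀ hr2] at hb
    rw [hδ, div_le_iff₀ h2b]
    linarith
  have hN : 0 < 2 ^ b := by positivity
  have hmem : ∀ s : ℕ, s ≤ 2 ^ b → (s : ℝ) * δ ∈ Icc (0 : ℝ) L := by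
    intro s hs
    have : (s : ℝ) ≤ 2 ^ b := by exact_mod_cast hs
    refine ⟨by positivity, ?_⟩
    rw [← hδL]
    exact mul_le_mul_of_nonneg_right this hδ0.le
  have hno' : ¬ ClosedGeod X (2 ^ (a + b) * δ) := by
    rw [pow_add, mul_assoc, hδL]
    exact hno
  refine Pool.Agent.U354.GE.equivariant hr hX hU (a + b) (2 ^ b) hδ0 hδr hno' (K := K) σ
    (fun k n => c (σ^[n / 2 ^ b] k) (((n % 2 ^ b : ℕ) : ℝ) * δ)) ?_ ?_ ?_ ?_ f ?_
  · intro n
    exact (hc _ (hmem _ (Nat.mod_lt _ hN).le)).comp (σ.continuous.iterate _)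
  · intro k n
    have hs : n % 2 ^ b + 1 ≤ 2 ^ b := Nat.mod_lt _ hN
    have hn : n = 2 ^ b * (n / 2 ^ b) + n % 2 ^ b := (Nat.div_add_mod _ _).symm
    rcases hs.lt_or_eq with h | h
    · have e1 : (n + 1) / 2 ^ b = n / 2 ^ b := by
        conv_lhs => rw [hn, add_assoc, Nat.mul_add_div hN, Nat.div_eq_of_lt h, add_zero]
      have e2 : (n + 1) % 2 ^ b = n % 2 ^ b + 1 := by
        conv_lhs => rw [hn, add_assoc, Nat.mul_add_mod, Nat.mod_eq_of_lt h]
      show dist (c (σ^[n / 2 ^ b] k) (((n % 2 ^ b : ℕ) : ℝ) * δ))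
        (c (σ^[(n + 1) / 2 ^ b] k) ((((n + 1) % 2 ^ b : ℕ) : ℝ) * δ)) ≤ δ
      rw [e1, e2]
      refine (hl _ _ (hmem _ (Nat.mod_lt _ hN).le) _ (hmem _ hs)).trans (le_of_eq ?_)
      push_cast
      rw [abs_sub_comm, show ((n % 2 ^ b : ℕ) + 1 : ℝ) * δ - (n % 2 ^ b : ℕ) * δ = δ by ring,
        abs_of_pos hδ0]
    · have e1 : (n + 1) / 2 ^ b = n / 2 ^ b + 1 := by
        conv_lhs => rw [hn, add_assoc, h, Nat.mul_add_div hN, Nat.div_self hN]
      have e2 : (n + 1) % 2 ^ b = 0 := by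
        conv_lhs => rw [hn, add_assoc, h, Nat.mul_add_mod, Nat.mod_self]
      show dist (c (σ^[n / 2 ^ b] k) (((n % 2 ^ b : ℕ) : ℝ) * δ))
        (c (σ^[(n + 1) / 2 ^ b] k) ((((n + 1) % 2 ^ b : ℕ) : ℝ) * δ)) ≤ δ
      rw [e1, e2, Nat.cast_zero, zero_mul, h0, Function.iterate_succ_apply', ← h1]
      refine (hl _ _ (hmem _ (Nat.mod_lt _ hN).le) _ ⟨hL.le, le_rfl⟩).trans (le_of_eq ?_)
      have e3 : ((n % 2 ^ b : ℕ) : ℝ) + 1 = 2 ^ b := by exact_mod_cast h
      have e4 : L - ((n % 2 ^ b : ℕ) : ℝ) * δ = δ := by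
        rw [← hδL, ← e3]
        ring
      rw [abs_sub_comm, e4, abs_of_pos hδ0]
  · intro k n
    have e1 : (n + 2 ^ (a + b)) / 2 ^ b = n / 2 ^ b + 2 ^ a := by
      rw [pow_add, Nat.add_mul_div_right _ _ hN]
    have e2 : (n + 2 ^ (a + b)) % 2 ^ b = n % 2 ^ b := by
      rw [pow_add, Nat.add_mul_mod_self_right]
    show c (σ^[(n + 2 ^ (a + b)) / 2 ^ b] k) ((((n + 2 ^ (a + b)) % 2 ^ b : ℕ) : ℝ) * δ) = _
    rw [e1, e2, Function.iterate_add_apply, hσ]
  · intro k n
    have e1 : (n + 2 ^ b) / 2 ^ b = n / 2 ^ b + 1 := by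
      rw [Nat.add_div_right _ hN]
    have e2 : (n + 2 ^ b) % 2 ^ b = n % 2 ^ b := Nat.add_mod_right _ _
    show c (σ^[n / 2 ^ b] (σ k)) (((n % 2 ^ b : ℕ) : ℝ) * δ) =
      c (σ^[(n + 2 ^ b) / 2 ^ b] k) ((((n + 2 ^ b) % 2 ^ b : ℕ) : ℝ) * δ)
    rw [e1, e2, Function.iterate_succ_apply]
  · intro k
    show f k = c (σ^[0 / 2 ^ b] k) (((0 % 2 ^ b : ℕ) : ℝ) * δ)
    rw [Nat.zero_div, Nat.zero_mod, Nat.cast_zero, zero_mul, Function.iterate_zero, id, h0]

/-- **Short periodic geodesics from periodic maps and circle actions which need not be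
isometric.** -/
theorem result (X : Type) [MetricSpace X] [CompactSpace X] (r : ℝ) (hr : 0 < r)
    (hX : GeodSpace X) (hU : UniqGeod X r) :
    (∀ (K : Type) [TopologicalSpace K] (a : ℕ) (σ : C(K, K)) (f : C(K, X)),
      (∀ k, σ^[2 ^ a] k = k) → ¬ Inv σ f →
      (∀ (L : ℝ) (c : K → ℝ → X), 0 < L → (∀ t ∈ Icc (0 : ℝ) L, Continuous fun k => c k t) →
        (∀ k, ∀ s ∈ Icc (0 : ℝ) L, ∀ t ∈ Icc (0 : ℝ) L, dist (c k s) (c k t) ≤ |s - t|) →
        (∀ k, c k 0 = f k ∧ c k L = f (σ k)) → ClosedGeod X (2 ^ a * L)) ∧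
      (∀ D : ℝ, (∀ k, OneGeod (f k) (f (σ k)) ∧ dist (f k) (f (σ k)) ≤ D) →
        ClosedGeod X (2 ^ a * D))) ∧
    (∀ (K : Type) [TopologicalSpace K] (φ : ℝ → C(K, K)) (ℓ : ℝ) (f : C(K, X)), 0 < ℓ →
      (∀ s t k, φ (s + t) k = φ s (φ t k)) → (∀ k, φ ℓ k = k) →
      (∀ s t k, dist (f (φ s k)) (f (φ t k)) ≤ |s - t|) →
      ∀ a : ℕ, ¬ Inv (φ (ℓ / 2 ^ a)) f → ClosedGeod X ℓ) ∧
    (∀ (a : ℕ) (h : C(X, X)), (∀ x, h^[2 ^ a] x = x) → ¬ Inv h (ContinuousMap.id X) →
      (∀ x, OneGeod x (h x)) → ClosedGeod X (2 ^ a * Metric.diam (univ : Set X))) ∧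
    (∀ (φ : ℝ → C(X, X)) (ℓ : ℝ), 0 < ℓ → (∀ s t x, φ (s + t) x = φ s (φ t x)) →
      (∀ x, φ ℓ x = x) → (∀ s t x, dist (φ s x) (φ t x) ≤ |s - t|) →
      ¬ Inv (φ (ℓ / 2)) (ContinuousMap.id X) → ClosedGeod X ℓ) := by
  have hbd : Bornology.IsBounded (univ : Set X) := isCompact_univ.isBounded
  have hdD : ∀ x y : X, dist x y ≤ Metric.diam (univ : Set X) := fun x y =>
    Metric.dist_le_diam_of_mem hbd (mem_univ x) (mem_univ y)
  have h1 : ∀ (K : Type) [TopologicalSpace K] (a : ℕ) (σ : C(K, K)) (f : C(K, X)),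
      (∀ k, σ^[2 ^ a] k = k) → ¬ Inv σ f →
      (∀ (L : ℝ) (c : K → ℝ → X), 0 < L → (∀ t ∈ Icc (0 : ℝ) L, Continuous fun k => c k t) →
        (∀ k, ∀ s ∈ Icc (0 : ℝ) L, ∀ t ∈ Icc (0 : ℝ) L, dist (c k s) (c k t) ≤ |s - t|) →
        (∀ k, c k 0 = f k ∧ c k L = f (σ k)) → ClosedGeod X (2 ^ a * L)) ∧
      (∀ D : ℝ, (∀ k, OneGeod (f k) (f (σ k)) ∧ dist (f k) (f (σ k)) ≤ D) →
        ClosedGeod X (2 ^ a * D)) := by
    intro K _ a σ f hσ hf
    refine ⟨fun L c hL hc hl h01 => ?_, fun D hD => ?_⟩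
    · by_contra hno
      exact hf (tracks hr hX hU a hL hno σ f c hσ hc hl (fun k => (h01 k).1)
        (fun k => (h01 k).2))
    · rcases isEmpty_or_nonempty K with hK | ⟨⟨k₀⟩⟩
      · exact absurd ⟨f, ContinuousMap.Homotopic.refl _, fun k => (hK.false k).elim⟩ hf
      have hD0 : 0 ≤ D := dist_nonneg.trans (hD k₀).2
      rcases hD0.eq_or_lt with h0 | h0
      · refine absurd ⟨f, ContinuousMap.Homotopic.refl _, fun k => ?_⟩ hf
        have := (hD k).2
        rw [← h0] at this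
        exact (dist_le_zero.1 this).symm
      · by_contra hno
        obtain ⟨c, c1, c2, c3, c4⟩ := exists_geod hX f (f.comp σ) (fun k => (hD k).1)
          (fun k => (hD k).2)
        exact hf (tracks hr hX hU a h0 hno σ f c hσ (fun t _ => c1 t) (fun k s _ t _ => c2 k s t)
          c3 c4)
  have h2 : ∀ (K : Type) [TopologicalSpace K] (φ : ℝ → C(K, K)) (ℓ : ℝ) (f : C(K, X)), 0 < ℓ →
      (∀ s t k, φ (s + t) k = φ s (φ t k)) → (∀ k, φ ℓ k = k) →
      (∀ s t k, dist (f (φ s k)) (f (φ t k)) ≤ |s - t|) →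
      ∀ a : ℕ, ¬ Inv (φ (ℓ / 2 ^ a)) f → ClosedGeod X ℓ := by
    intro K _ φ ℓ f hℓ hφ hper hsp a hf
    have hper0 : ∀ k, φ 0 k = k := by
      intro k
      have e1 := hφ 0 ℓ k
      rw [zero_add, hper] at e1
      exact e1.symm
    have hit : ∀ (n : ℕ) (s : ℝ) k, (φ s)^[n] k = φ (n * s) k := by
      intro n s k
      induction n with
      | zero => rw [Nat.cast_zero, zero_mul, hper0]; rfl
      | succ n ih =>
        rw [Function.iterate_succ_apply', ih, ← hφ]
        congr 2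
        push_cast
        ring
    have hL : 0 < ℓ / 2 ^ a := by positivity
    have e : (2 : ℝ) ^ a * (ℓ / 2 ^ a) = ℓ := by field_simp
    have h3 := (h1 K a (φ (ℓ / 2 ^ a)) f (fun k => by
      rw [hit]
      push_cast
      rw [e, hper]) hf).1 (ℓ / 2 ^ a) (fun k t => f (φ t k)) hL
      (fun t _ => f.continuous.comp (φ t).continuous) (fun k s _ t _ => hsp s t k)
      (fun k => ⟨by rw [hper0], rfl⟩)
    rwa [e] at h3
  refine ⟨h1, h2, fun a h hh hInv hOne => ?_, fun φ ℓ hℓ hφ hper hsp hInv => ?_⟩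
  · exact (h1 X a h (ContinuousMap.id X) hh hInv).2 _ fun x => ⟨hOne x, hdD _ _⟩
  · refine h2 X φ ℓ (ContinuousMap.id X) hℓ hφ hper hsp 1 ?_
    rw [pow_one]
    exact hInv

end Pool.Agent.Results.MP_3eff7f_gt.NonIsometricActions
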