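import Mathlib
import Pool.Agent.Y489.GE.Stm

/-!
# Short periodic geodesics of warped and twisted products

`Block X B F` collects the infinitesimal properties of a Riemannian metric `h + g_b` on `B × F`, where
`h` is a metric on `B` and `g_b`, `b ∈ B`, is a family of metrics on `F` with a least member `g_o`
(for example a warped product `h + u² g`, with `u` least at `o`): at small distances and up to a
factor `1 + ε` the projection to `B` does not increase distances, nor does the inclusion of a leaf
`B × {y}`, nor the projection to `F`, with the distance of `g_o`, nor the inclusion of the fibre over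
`o`.

The inequalities `(shortest periodic geodesic) ≤ C vol ^ (1 / n)` of `B` and `(F, g_o)` are inherited
by `X`, with the product of the constants, and so is the inequality with the diameter of `B`.
-/

set_option autoImplicit false

open Set MeasureTheory

noncomputable section

namespace Pool.Agent.Results.MP_3eff7f_gt.WarpedMetrics

open Pool.Agent.Y489.GE

/-- at small distances the map `φ` increases distances at most by a factor close to `1` -/
def Short {Y Z : Type} [MetricSpace Y] [MetricSpace Z] (φ : Y → Z) : Prop :=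
  ∀ ε : ℝ, 0 < ε → ∃ δ : ℝ, 0 < δ ∧ ∀ x y : Y, dist x y < δ →
    dist (φ x) (φ y) ≤ (1 + ε) * dist x y

/-- a map of a geodesic space which is infinitesimally short does not increase distances -/
theorem Short.le {Y Z : Type} [MetricSpace Y] [MetricSpace Z] {φ : Y → Z} (h : Short φ)
    (hY : GeodSpace Y) (x y : Y) : dist (φ x) (φ y) ≤ dist x y := by
  have key : ∀ ε : ℝ, 0 < ε → dist (φ x) (φ y) ≤ (1 + ε) * dist x y := by
    intro ε hε
    obtain ⟨δ, hδ, hφ⟩ := h ε hε
    obtain ⟨c, c0, c1, hc⟩ := hY x y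
    obtain ⟨N, hN⟩ := exists_nat_gt (dist x y / δ)
    have hN0 : (0 : ℝ) < N := lt_of_le_of_lt (by positivity) hN
    have hstep : ∀ i ∈ Finset.range N,
        dist (φ (c ((i : ℝ) / N))) (φ (c (((i + 1 : ℕ) : ℝ) / N))) ≤
          (1 + ε) * (dist x y / N) := by
      intro i hi
      have hi' : (i : ℝ) + 1 ≤ N := by exact_mod_cast Finset.mem_range.1 hi
      have m1 : (i : ℝ) / N ∈ Icc (0 : ℝ) 1 :=
        ⟨by positivity, (div_le_one hN0).2 (by linarith)⟩
      have m2 : ((i + 1 : ℕ) : ℝ) / N ∈ Icc (0 : ℝ) 1 :=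
        ⟨by positivity, (div_le_one hN0).2 (by push_cast; exact hi')⟩
      have e : dist (c ((i : ℝ) / N)) (c (((i + 1 : ℕ) : ℝ) / N)) = dist x y / N := by
        rw [hc _ m1 _ m2]
        have : (i : ℝ) / N - ((i + 1 : ℕ) : ℝ) / N = -(1 / N) := by
          push_cast
          field_simp
          ring
        rw [this, abs_neg, abs_of_pos (by positivity)]
        ring
      have hlt : dist (c ((i : ℝ) / N)) (c (((i + 1 : ℕ) : ℝ) / N)) < δ := by
        rw [e, div_lt_iff₀ hN0]
        rw [div_lt_iff₀ hδ] at hN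
        linarith
      have := hφ _ _ hlt
      rwa [e] at this
    have hsum := dist_le_range_sum_dist (fun i : ℕ => φ (c ((i : ℝ) / N))) N
    have e0 : c (((0 : ℕ) : ℝ) / N) = x := by rw [Nat.cast_zero, zero_div, c0]
    have e1 : c ((N : ℝ) / N) = y := by rw [div_self hN0.ne', c1]
    simp only [e0, e1] at hsum
    refine hsum.trans ((Finset.sum_le_sum hstep).trans (le_of_eq ?_))
    rw [Finset.sum_const, Finset.card_range, nsmul_eq_mul]
    field_simp
  refine le_of_forall_pos_le_add fun η hη => ?_
  have hD : 0 ≤ dist x y := dist_nonneg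
  refine (key (η / (dist x y + 1)) (by positivity)).trans ?_
  have : η / (dist x y + 1) * dist x y ≤ η := by
    rw [div_mul_eq_mul_div, div_le_iff₀ (by positivity)]
    nlinarith
  linarith

/-- infinitesimal properties of a metric `h + g_b` on `B × F`, where `F` carries the distance of the
least metric `g_o` of the family -/
structure Block (X B F : Type) [MetricSpace X] [MetricSpace B] [MetricSpace F] where
  /-- the projection to the base -/
  pr : X → B
  /-- the projection to the fibre -/
  fi : X → F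
  /-- the point with given coordinates -/
  pt : B → F → X
  /-- the point of the base at which the metric of the fibre is least -/
  o : B
  pt_eq : ∀ x, pt (pr x) (fi x) = x
  pr_pt : ∀ b y, pr (pt b y) = b
  fi_pt : ∀ b y, fi (pt b y) = y
  base : Short pr
  leaf : ∀ y, Short (fun b => pt b y)
  fibre : Short fi
  least : Short (fun y => pt o y)

variable {X B F : Type} [MetricSpace X] [MetricSpace B] [MetricSpace F]

theorem mono {L L' : ℝ} (h : ClosedGeod X L) (hL : L ≤ L') : ClosedGeod X L' := by
  obtain ⟨γ, ℓ, a1, a2, a3, a4⟩ := h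
  exact ⟨γ, ℓ, a1, a2.trans hL, a3, a4⟩

theorem pos {L : ℝ} (h : ClosedGeod X L) : 0 < L := by
  obtain ⟨γ, ℓ, a1, a2, a3, a4⟩ := h
  exact a1.trans_le a2

/-- periodic geodesics of an isometrically embedded space -/
theorem emb {Y : Type} [MetricSpace Y] (e : Y → X) (he : ∀ y y', dist (e y) (e y') = dist y y')
    {L : ℝ} (h : ClosedGeod Y L) : ClosedGeod X L := by
  obtain ⟨γ, ℓ, a1, a2, a3, ε, hε, a4⟩ := h
  refine ⟨fun t => e (γ t), ℓ, a1, a2, fun t => congrArg e (a3 t), ε, hε, fun s t hst => ?_⟩
  rw [he, a4 s t hst]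

theorem of_base (hX : GeodSpace X) (hB : GeodSpace B) (S : Block X B F) [Nonempty F] {L : ℝ}
    (h : ClosedGeod B L) : ClosedGeod X L := by
  obtain ⟨y⟩ := ‹Nonempty F›
  refine emb (fun b => S.pt b y) (fun b c => le_antisymm ((S.leaf y).le hB b c) ?_) h
  have := S.base.le hX (S.pt b y) (S.pt c y)
  rwa [S.pr_pt, S.pr_pt] at this

theorem of_fibre (hX : GeodSpace X) (hF : GeodSpace F) (S : Block X B F) {L : ℝ}
    (h : ClosedGeod F L) : ClosedGeod X L := by
  refine emb (fun y => S.pt S.o y) (fun y y' => le_antisymm (S.least.le hF y y') ?_) h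
  have := S.fibre.le hX (S.pt S.o y) (S.pt S.o y')
  rwa [S.fi_pt, S.fi_pt] at this

/-- **Short periodic geodesics of warped and twisted products.** -/
theorem result (X B F : Type) [MetricSpace X] [MetricSpace B] [MetricSpace F] [Nonempty F]
    (hX : GeodSpace X) (hB : GeodSpace B) (hF : GeodSpace F) (S : Block X B F) :
    (∀ L : ℝ, ClosedGeod B L ∨ ClosedGeod F L → ClosedGeod X L) ∧
    (∀ [MeasurableSpace B] (μ : Measure B) [IsFiniteMeasure μ] (v : B → ℝ) (k j : ℕ)
      (C D : ℝ), 1 ≤ k → 1 ≤ j → 0 ≤ C → 0 ≤ D → Integrable v μ → 0 ≤ v S.o →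
      (∀ b, v S.o ≤ v b) →
      ClosedGeod B ((C * μ.real univ) ^ (1 / (k : ℝ))) →
      ClosedGeod F ((D * v S.o) ^ (1 / (j : ℝ))) →
      ClosedGeod X ((C * D * ∫ b, v b ∂μ) ^ (1 / ((k : ℝ) + j)))) ∧
    (∀ C : ℝ, 0 ≤ C → Bornology.IsBounded (univ : Set X) →
      ClosedGeod B (C * Metric.diam (univ : Set B)) →
      ClosedGeod X (C * Metric.diam (univ : Set X))) := by
  refine ⟨?_, ?_, ?_⟩
  · rintro L (h | h)
    · exact of_base hX hB S h
    · exact of_fibre hX hF S h
  · intro _ μ _ v k j C D hk hj hC hD hv h0 hmin gB gF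
    have hk' : (0 : ℝ) < k := by exact_mod_cast hk
    have hj' : (0 : ℝ) < j := by exact_mod_cast hj
    set a := (C * μ.real univ) ^ (1 / (k : ℝ)) with ha
    set c := (D * v S.o) ^ (1 / (j : ℝ)) with hc
    have ha0 : 0 < a := pos gB
    have hc0 : 0 < c := pos gF
    have hCμ : 0 ≤ C * μ.real univ := mul_nonneg hC measureReal_nonneg
    have hDv : 0 ≤ D * v S.o := mul_nonneg hD h0
    have hak : a ^ (k : ℝ) = C * μ.real univ := by
      rw [ha, ← Real.rpow_mul hCμ, one_div_mul_cancel hk'.ne', Real.rpow_one]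
    have hcj : c ^ (j : ℝ) = D * v S.o := by
      rw [hc, ← Real.rpow_mul hDv, one_div_mul_cancel hj'.ne', Real.rpow_one]
    set m := min a c with hm
    have hm0 : 0 < m := lt_min ha0 hc0
    have gX : ClosedGeod X m := by
      rcases le_total a c with h | h
      · rw [hm, min_eq_left h]
        exact of_base hX hB S gB
      · rw [hm, min_eq_right h]
        exact of_fibre hX hF S gF
    refine mono gX ?_
    have hint : μ.real univ * v S.o ≤ ∫ b, v b ∂μ := by
      have h1 : ∫ _b : B, v S.o ∂μ ≤ ∫ b, v b ∂μ :=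
        integral_mono (integrable_const _) hv (fun b => hmin b)
      rwa [integral_const, smul_eq_mul] at h1
    have hpow : m ^ ((k : ℝ) + j) ≤ C * D * ∫ b, v b ∂μ := by
      calc m ^ ((k : ℝ) + j) = m ^ (k : ℝ) * m ^ (j : ℝ) := Real.rpow_add hm0 _ _
        _ ≤ a ^ (k : ℝ) * c ^ (j : ℝ) :=
          mul_le_mul (Real.rpow_le_rpow hm0.le (min_le_left _ _) hk'.le)
            (Real.rpow_le_rpow hm0.le (min_le_right _ _) hj'.le)
            (Real.rpow_nonneg hm0.le _) (Real.rpow_nonneg ha0.le _)
        _ = C * D * (μ.real univ * v S.o) := by rw [hak, hcj]; ring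
        _ ≤ C * D * ∫ b, v b ∂μ := mul_le_mul_of_nonneg_left hint (mul_nonneg hC hD)
    have hkj : 0 < (k : ℝ) + j := by positivity
    calc m = (m ^ ((k : ℝ) + j)) ^ (1 / ((k : ℝ) + j)) := by
          rw [← Real.rpow_mul hm0.le, mul_one_div_cancel hkj.ne', Real.rpow_one]
      _ ≤ _ := Real.rpow_le_rpow (Real.rpow_nonneg hm0.le _) hpow (by positivity)
  · intro C hC hb h
    refine mono (of_base hX hB S h) (mul_le_mul_of_nonneg_left ?_ hC)
    obtain ⟨y⟩ := ‹Nonempty F›
    refine Metric.diam_le_of_forall_dist_le Metric.diam_nonneg fun b _ c _ => ?_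
    have h1 := S.base.le hX (S.pt b y) (S.pt c y)
    rw [S.pr_pt, S.pr_pt] at h1
    exact h1.trans (Metric.dist_le_diam_of_mem hb (mem_univ _) (mem_univ _))

end Pool.Agent.Results.MP_3eff7f_gt.WarpedMetrics
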